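import Pool.Agent.H985.Cor.StmCor6
import Pool.Agent.H996.Par.Low

/-!
# Square divisors in sifted sets (task TAIL of helper985)
-/

set_option autoImplicit false

namespace Pool.Agent.H549.Cor6

open Polynomial Finset
open scoped Classical
open Pool.Agent.H694.Typ
open Pool.Agent.H985.Par
open Pool.Agent.H996.Par

/-- the residue classes -/
noncomputable def OmA {K : Type} [Field K] {k : ℕ} (α : Fin k → K[X]) (A : Finset (Fin k))
    (P : K[X]) : Finset K[X] :=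
  A.image (fun i => (-α i) %ₘ P)

section basic

variable {K : Type} [Field K] {k : ℕ} (α : Fin k → K[X]) (A : Finset (Fin k))

theorem OmA_card (P : K[X]) : (OmA α A P).card ≤ k := by
  have h1 := card_image_le (s := A) (f := fun i => (-α i) %ₘ P)
  have h2 : A.card ≤ k := by
    have := card_le_univ A
    rwa [Fintype.card_fin] at this
  exact h1.trans h2

theorem OmA_deg {P : K[X]} (hP : P.Monic) : ∀ r ∈ OmA α A P, r.degree < P.degree := by
  intro r hr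
  obtain ⟨i, -, rfl⟩ := mem_image.1 hr
  exact degree_modByMonic_lt _ hP

variable [Fintype K]

theorem OmA_lt {P : K[X]} (hP : P.Monic) (hr : ∃ r : K[X], ∀ i ∈ A, ¬ P ∣ r + α i) :
    (OmA α A P).card < Fintype.card K ^ P.natDegree := by
  obtain ⟨r, hr⟩ := hr
  have hD : ((univ : Finset (Fin P.natDegree → K)).image
      (pol : (Fin P.natDegree → K) → K[X])).card = Fintype.card K ^ P.natDegree := by
    rw [card_image_of_injective _ pol_inj, card_univ, Fintype.card_fun, Fintype.card_fin]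
  have hmem : ∀ a : K[X], a.degree < P.degree → a ∈ (univ : Finset (Fin P.natDegree → K)).image
      (pol : (Fin P.natDegree → K) → K[X]) := by
    intro a ha
    rw [degree_eq_natDegree hP.ne_zero] at ha
    obtain ⟨c, hc⟩ := exists_pol ha
    exact mem_image.2 ⟨c, mem_univ _, hc⟩
  rw [← hD]
  refine card_lt_card ⟨fun a ha => hmem a (OmA_deg α A hP a ha), fun h => ?_⟩
  have h1 := h (hmem (r %ₘ P) (degree_modByMonic_lt _ hP))
  obtain ⟨i, hiA, hi⟩ := mem_image.1 h1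
  have h2 : (-α i) %ₘ P = r %ₘ P := hi
  apply hr i hiA
  rw [← dvd_rem, h2]
  refine ⟨r /ₘ P, ?_⟩
  have h3 := modByMonic_add_div r P
  linear_combination -h3

/-- the local factor -/
noncomputable def Z (P : K[X]) : ℝ := 1 - ((OmA α A P).card : ℝ) / (Fintype.card K : ℝ) ^ P.natDegree

theorem SfsA_eq (n m : ℕ) :
    ((SfsA K α A n m : Finset K[X]) : Set K[X]) = (fun u : K[X] => X ^ n + u) ''
      {u | u.degree < (n : WithBot ℕ) ∧
        ∀ P ∈ PU K m, ∀ r ∈ OmA α A P, ¬ P ∣ X ^ n + 1 * u - r} := by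
  ext f
  rw [Finset.mem_coe, SfsA, mem_filter, Set.mem_image]
  constructor
  · rintro ⟨hf1, hf2⟩
    rw [mem_Mn] at hf1
    obtain ⟨c, hc⟩ := exists_mon hf1.1 hf1.2
    refine ⟨pol c, ⟨pol_degree c, ?_⟩, hc⟩
    intro P hP r hr hd
    obtain ⟨i, hiA, rfl⟩ := mem_image.1 hr
    rw [one_mul, dvd_rem] at hd
    have hc' : X ^ n + pol c = f := hc
    rw [hc'] at hd
    rw [mem_PU] at hP
    have := hf2 i hiA P hP.1 hP.2.1 hd
    omega
  · rintro ⟨u, ⟨hu1, hu2⟩, rfl⟩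
    obtain ⟨c, rfl⟩ := exists_pol hu1
    refine ⟨mem_Mn.2 ⟨mon_monic c, mon_natDegree c⟩, ?_⟩
    intro i hiA P hP hPi hd
    by_contra hcon
    rw [not_lt] at hcon
    refine hu2 P (mem_PU.2 ⟨hP, hPi, hcon⟩) ((-α i) %ₘ P) (mem_image.2 ⟨i, hiA, rfl⟩) ?_
    rw [one_mul, dvd_rem]
    exact hd

theorem SfsA_card (n m : ℕ) :
    (SfsA K α A n m).card = {u : K[X] | u.degree < (n : WithBot ℕ) ∧
        ∀ P ∈ PU K m, ∀ r ∈ OmA α A P, ¬ P ∣ X ^ n + 1 * u - r}.ncard := by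
  rw [← Set.ncard_coe_finset, SfsA_eq, Set.ncard_image_of_injective]
  intro a b h
  exact add_left_cancel h

omit [Fintype K] in
theorem deg_pos {P : K[X]} (hP : Irreducible P) : 1 ≤ P.natDegree := by
  have h := hP.natDegree_pos
  omega

theorem Z_fac {P : K[X]} (hPi : Irreducible P)
    (hlt : (OmA α A P).card < Fintype.card K ^ P.natDegree) :
    1 ≤ Z α A P * ((if P.natDegree ≤ 3 * k then (3 * (k : ℝ) + 1) else 1) *
      (3 / 2 : ℝ) ^ P.natDegree) := by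
  have hq := q_ge (k := K)
  have hd := deg_pos (K := K) hPi
  set d := P.natDegree with hdd
  set y : ℝ := (Fintype.card K : ℝ) ^ d with hy
  have hwk : ((OmA α A P).card : ℝ) ≤ k := by exact_mod_cast OmA_card α A P
  have hwy : ((OmA α A P).card : ℝ) + 1 ≤ y := by
    rw [hy]; exact_mod_cast hlt
  have hk0 : (0 : ℝ) ≤ k := Nat.cast_nonneg k
  have hw0 : (0 : ℝ) ≤ ((OmA α A P).card : ℝ) := Nat.cast_nonneg _
  have hy2 : (2 : ℝ) ^ d ≤ y := pow_le_pow_left₀ (by norm_num) hq d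
  have hy0 : 0 < y := by linarith
  have h32 : (3 / 2 : ℝ) ≤ (3 / 2 : ℝ) ^ d := by
    calc (3 / 2 : ℝ) = (3 / 2) ^ 1 := (pow_one _).symm
      _ ≤ (3 / 2) ^ d := pow_le_pow_right₀ (by norm_num) hd
  have hZ : Z α A P = (y - (OmA α A P).card) / y := by
    unfold Z
    rw [← hdd, ← hy]
    field_simp
  have big : 3 * (k : ℝ) ≤ y → 2 / 3 ≤ Z α A P := by
    intro h
    rw [hZ, le_div_iff₀ hy0]
    linarith
  split_ifs with hc
  · rcases le_or_gt y (3 * (k : ℝ) + 1) with h | h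
    · have h1 : 1 ≤ Z α A P * (3 * (k : ℝ) + 1) := by
        rw [hZ, div_mul_eq_mul_div, le_div_iff₀ hy0, one_mul]
        nlinarith
      nlinarith
    · have h1 := big (by linarith)
      have h2 : 1 ≤ Z α A P * (3 / 2 : ℝ) ^ d := by nlinarith
      have h3 : 0 ≤ Z α A P * (3 / 2 : ℝ) ^ d := by linarith
      calc (1 : ℝ) ≤ Z α A P * (3 / 2 : ℝ) ^ d := h2
        _ ≤ Z α A P * (3 / 2 : ℝ) ^ d * (3 * k + 1) := by nlinarith
        _ = _ := by ring
  · have h1 : (d : ℝ) < 2 ^ d := by exact_mod_cast Nat.lt_two_pow_self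
    have h2 : (3 * (k : ℝ)) < d := by exact_mod_cast not_le.1 hc
    have h3 := big (by linarith)
    nlinarith

theorem Z_pos {P : K[X]} (hlt : (OmA α A P).card < Fintype.card K ^ P.natDegree) :
    0 < Z α A P := by
  have hq := q_ge (k := K)
  unfold Z
  have h1 : ((OmA α A P).card : ℝ) < (Fintype.card K : ℝ) ^ P.natDegree := by exact_mod_cast hlt
  have h2 : (0 : ℝ) < (Fintype.card K : ℝ) ^ P.natDegree := by positivity
  rw [sub_pos, div_lt_one h2]
  exact h1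

/-- the constant -/
noncomputable def CC (K : Type) [Field K] [Fintype K] (k : ℕ) : ℝ :=
  (3 * (k : ℝ) + 1) ^ (PU K (3 * k)).card

theorem CC_ge : 1 ≤ CC K k := by
  unfold CC
  have : (0 : ℝ) ≤ k := Nat.cast_nonneg k
  exact one_le_pow₀ (by linarith)

theorem Z_prod (m : ℕ) {g : K[X]} (hg : g.Monic)
    (hlt : ∀ P ∈ PU K m, (OmA α A P).card < Fintype.card K ^ P.natDegree) :
    1 ≤ (∏ P ∈ (PU K m).filter (fun P => P ∣ g), Z α A P) * (CC K k * (3 / 2 : ℝ) ^ g.natDegree) := by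
  set D := (PU K m).filter (fun P => P ∣ g) with hD
  have hk0 : (0 : ℝ) ≤ k := Nat.cast_nonneg k
  have hDm : ∀ P ∈ D, P.Monic ∧ Irreducible P ∧ P.natDegree ≤ m ∧ P ∣ g := by
    intro P hP
    rw [hD, mem_filter, mem_PU] at hP
    exact ⟨hP.1.1, hP.1.2.1, hP.1.2.2, hP.2⟩
  have hZpos : ∀ P ∈ D, 0 < Z α A P := fun P hP => Z_pos α A (hlt P (mem_filter.1 hP).1)
  have h1 : (1 : ℝ) ≤ ∏ P ∈ D, (Z α A P * ((if P.natDegree ≤ 3 * k then (3 * (k : ℝ) + 1) else 1) *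
      (3 / 2 : ℝ) ^ P.natDegree)) := by
    have := prod_le_prod (s := D) (f := fun _ => (1 : ℝ)) (g := fun P => (Z α A P *
      ((if P.natDegree ≤ 3 * k then (3 * (k : ℝ) + 1) else 1) * (3 / 2 : ℝ) ^ P.natDegree)))
      (fun _ _ => zero_le_one) (fun P hP => Z_fac α A (hDm P hP).2.1 (hlt P (mem_filter.1 hP).1))
    rwa [prod_const_one] at this
  rw [prod_mul_distrib, prod_mul_distrib] at h1
  have h2 : ∏ P ∈ D, (if P.natDegree ≤ 3 * k then (3 * (k : ℝ) + 1) else 1) ≤ CC K k := by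
    rw [← prod_filter, prod_const]
    unfold CC
    refine pow_le_pow_right₀ (by linarith) (card_le_card fun P hP => ?_)
    rw [mem_filter] at hP
    exact mem_PU.2 ⟨(hDm P hP.1).1, (hDm P hP.1).2.1, hP.2⟩
  have h3 : ∏ P ∈ D, (3 / 2 : ℝ) ^ P.natDegree ≤ (3 / 2 : ℝ) ^ g.natDegree := by
    rw [prod_pow_eq_pow_sum]
    refine pow_le_pow_right₀ (by norm_num) ?_
    have h4 : (∏ P ∈ D, P) ∣ g := by
      refine Finset.prod_dvd_of_coprime (fun P hP Q hQ hPQ => ?_) (fun P hP => (hDm P hP).2.2.2)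
      exact coprime_of_ne (hDm P hP).1 (hDm P hP).2.1 (hDm Q hQ).1 (hDm Q hQ).2.1 hPQ
    have h5 := natDegree_le_of_dvd h4 hg.ne_zero
    rw [natDegree_prod_of_monic _ _ (fun P hP => (hDm P hP).1)] at h5
    exact h5
  have h4 : 0 ≤ ∏ P ∈ D, Z α A P := prod_nonneg fun P hP => (hZpos P hP).le
  have h5 : (0 : ℝ) ≤ ∏ P ∈ D, (if P.natDegree ≤ 3 * k then (3 * (k : ℝ) + 1) else 1) :=
    prod_nonneg fun P _ => by split_ifs <;> linarith
  have hCC : (0 : ℝ) ≤ CC K k := by linarith [CC_ge (K := K) (k := k)]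
  exact h1.trans (mul_le_mul_of_nonneg_left (mul_le_mul h2 h3
    (prod_nonneg fun P _ => by positivity) hCC) h4)

/-- sieve bound for the multiples of a square -/
theorem count_g {A₀ : ℕ} (hA : ∀ (L m : ℕ) (Ps : Finset K[X]) (Ω : K[X] → Finset K[X]) (M a₀ : K[X]),
      1 ≤ m → A₀ * m ≤ L →
      (∀ P ∈ Ps, P.Monic ∧ Irreducible P ∧ P.natDegree ≤ m ∧ IsCoprime M P) →
      (∀ P ∈ Ps, (Ω P).card ≤ k ∧ (Ω P).card < Fintype.card K ^ P.natDegree ∧
        ∀ r ∈ Ω P, r.degree < P.degree) →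
      (({u : K[X] | u.degree < (L : WithBot ℕ) ∧
        ∀ P ∈ Ps, ∀ r ∈ Ω P, ¬ P ∣ a₀ + M * u - r}).ncard : ℝ) ≤
        (1 + 1 / 2) * (∏ P ∈ Ps, (1 - ((Ω P).card : ℝ) / (Fintype.card K : ℝ) ^ P.natDegree)) *
          (Fintype.card K : ℝ) ^ L)
    (n m : ℕ) (hm : 1 ≤ m) (hn : A₀ * m + 2 * m ≤ n) (hα : ∀ i, (α i).natDegree < n)
    (hlt : ∀ P ∈ PU K m, (OmA α A P).card < Fintype.card K ^ P.natDegree) (j : Fin k)
    (s : ℕ) (hs : s ≤ m) (g : K[X]) (hg : g ∈ Mn K s) :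
    (((SfsA K α A n m).filter (fun f => g ^ 2 ∣ f + α j)).card : ℝ) ≤
      (3 / 2) * ((∏ P ∈ PU K m, Z α A P) * (CC K k * (3 / 2 : ℝ) ^ s)) *
        (Fintype.card K : ℝ) ^ (n - 2 * s) := by
  have hq := q_ge (k := K)
  rw [mem_Mn] at hg
  obtain ⟨hgm, hgs⟩ := hg
  set L := n - 2 * s with hL
  have hnL : n = 2 * s + L := by omega
  set Ps := (PU K m).filter (fun P => ¬ P ∣ g) with hPs
  set a₀ : K[X] := -α j + g ^ 2 * X ^ L with ha₀
  have h1 := hA L m Ps (OmA α A) (g ^ 2) a₀ hm (by omega) (fun P hP => by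
      rw [hPs, mem_filter, mem_PU] at hP
      refine ⟨hP.1.1, hP.1.2.1, hP.1.2.2, IsCoprime.pow_left ?_⟩
      exact ((hP.1.2.1.coprime_iff_not_dvd).2 hP.2).symm) (fun P hP => by
      rw [hPs, mem_filter, mem_PU] at hP
      exact ⟨OmA_card α A P, hlt P (mem_PU.2 hP.1), OmA_deg α A hP.1.1⟩)
  set Sif : Set K[X] := {u : K[X] | u.degree < (L : WithBot ℕ) ∧
        ∀ P ∈ Ps, ∀ r ∈ OmA α A P, ¬ P ∣ a₀ + g ^ 2 * u - r} with hSif
  have hfin : Sif.Finite := by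
    refine Set.Finite.subset ((univ : Finset (Fin L → K)).image
      (pol : (Fin L → K) → K[X])).finite_toSet fun u hu => ?_
    obtain ⟨c, hc⟩ := exists_pol hu.1
    exact mem_coe.2 (mem_image.2 ⟨c, mem_univ _, hc⟩)
  have hsub : (((SfsA K α A n m).filter (fun f => g ^ 2 ∣ f + α j) : Finset K[X]) : Set K[X]) ⊆
      (fun u => a₀ + g ^ 2 * u) '' Sif := by
    intro f hf
    rw [mem_coe, mem_filter, SfsA, mem_filter] at hf
    obtain ⟨⟨hf1, hf2⟩, v, hv⟩ := hf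
    have hfm := add_mem_Mn hf1 (hα j)
    rw [mem_Mn] at hfm
    have hg2 : (g ^ 2).Monic := hgm.pow 2
    have hvm : v.Monic := by
      have h2 : (g ^ 2 * v).Monic := by rw [← hv]; exact hfm.1
      exact hg2.of_mul_monic_left h2
    have hvd : v.natDegree = L := by
      have h2 := hfm.2
      rw [hv, hg2.natDegree_mul hvm, natDegree_pow, hgs] at h2
      omega
    obtain ⟨c, hc⟩ := exists_mon hvm hvd
    have hc' : X ^ L + pol c = v := hc
    have hfe : a₀ + g ^ 2 * pol c = f := by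
      rw [ha₀]
      linear_combination g ^ 2 * hc' - hv
    refine ⟨pol c, ⟨pol_degree c, ?_⟩, hfe⟩
    intro P hP r hr hd
    obtain ⟨i, hiA, rfl⟩ := mem_image.1 hr
    rw [hfe, dvd_rem] at hd
    rw [hPs, mem_filter, mem_PU] at hP
    have := hf2 i hiA P hP.1.1 hP.1.2.1 hd
    omega
  have h2 : (((SfsA K α A n m).filter (fun f => g ^ 2 ∣ f + α j)).card : ℝ) ≤ Sif.ncard := by
    rw [← Set.ncard_coe_finset]
    have h3 := Set.ncard_le_ncard hsub (hfin.image _)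
    have h4 := Set.ncard_image_le (f := fun u => a₀ + g ^ 2 * u) hfin
    exact_mod_cast h3.trans h4
  refine (h2.trans h1).trans ?_
  have h3 : ∏ P ∈ Ps, (1 - ((OmA α A P).card : ℝ) / (Fintype.card K : ℝ) ^ P.natDegree) ≤
      (∏ P ∈ PU K m, Z α A P) * (CC K k * (3 / 2 : ℝ) ^ s) := by
    have h4 := Z_prod α A m hgm hlt
    rw [hgs] at h4
    have h5 : (∏ P ∈ (PU K m).filter (fun P => P ∣ g), Z α A P) * (∏ P ∈ Ps, Z α A P) =
        ∏ P ∈ PU K m, Z α A P := by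
      rw [hPs]
      exact prod_filter_mul_prod_filter_not _ _ _
    have h6 : 0 ≤ ∏ P ∈ Ps, Z α A P :=
      prod_nonneg fun P hP => (Z_pos α A (hlt P (mem_filter.1 hP).1)).le
    calc ∏ P ∈ Ps, (1 - ((OmA α A P).card : ℝ) / (Fintype.card K : ℝ) ^ P.natDegree)
        = (∏ P ∈ Ps, Z α A P) * 1 := by rw [mul_one]; rfl
      _ ≤ (∏ P ∈ Ps, Z α A P) * ((∏ P ∈ (PU K m).filter (fun P => P ∣ g), Z α A P) *
          (CC K k * (3 / 2 : ℝ) ^ s)) := mul_le_mul_of_nonneg_left h4 h6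
      _ = _ := by rw [← h5]; ring
  have h4 : (0 : ℝ) < (Fintype.card K : ℝ) ^ L := by positivity
  have h5 : (1 + 1 / 2 : ℝ) = 3 / 2 := by norm_num
  rw [h5]
  gcongr

end basic

theorem geo34 (G m : ℕ) : ∑ s ∈ Icc (G + 1) m, (3 / 4 : ℝ) ^ s ≤ 4 * (3 / 4 : ℝ) ^ G := by
  have key : ∀ t : ℕ, ∑ s ∈ Icc (G + 1) (G + t), (3 / 4 : ℝ) ^ s ≤
      4 * (3 / 4 : ℝ) ^ G - 4 * (3 / 4 : ℝ) ^ (G + t) := by
    intro t
    induction t with
    | zero => simp
    | succ t ih =>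
      rw [← add_assoc, sum_Icc_succ_top (by omega)]
      have e : (3 / 4 : ℝ) ^ (G + t + 1) = (3 / 4) ^ (G + t) * (3 / 4) := pow_succ _ _
      have h0 : (0 : ℝ) ≤ (3 / 4 : ℝ) ^ (G + t) := by positivity
      rw [e]
      linarith
  rcases le_or_gt m G with h | h
  · rw [Icc_eq_empty (by omega), sum_empty]
    positivity
  · obtain ⟨t, rfl⟩ := Nat.exists_eq_add_of_le h.le
    have h1 := key t
    have h2 : (0 : ℝ) ≤ (3 / 4 : ℝ) ^ (G + t) := by positivity
    linarith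

theorem tail (hs : S_sw) : S_tail := by
  intro K _ _ k ε hε
  have hq := q_ge (k := K)
  obtain ⟨A₀, hA⟩ := hs K k (1 / 2) (by norm_num)
  set c₀ : ℝ := Real.exp (-((k : ℝ) + (8 * (k : ℝ) ^ 3 + 2 * (k : ℝ) ^ 2))) with hc₀
  have hc₀p : 0 < c₀ := Real.exp_pos _
  have hCC := CC_ge (K := K) (k := k)
  -- the choice of `G`
  obtain ⟨G, hG⟩ : ∃ G : ℕ, 6 * CC K k * (3 / 4 : ℝ) ^ G ≤ ε / 4 := by
    have ht := tendsto_pow_atTop_nhds_zero_of_lt_one (r := (3 / 4 : ℝ)) (by norm_num) (by norm_num)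
    have ht2 : Filter.Tendsto (fun G : ℕ => 6 * CC K k * (3 / 4 : ℝ) ^ G) Filter.atTop (nhds 0) := by
      simpa using ht.const_mul (6 * CC K k)
    exact (ht2.eventually_le_const (by positivity : (0 : ℝ) < ε / 4)).exists
  -- the choice of `m₀`
  obtain ⟨m₁, hm₁⟩ : ∃ m₁ : ℕ, ∀ m : ℕ, m₁ ≤ m → (m : ℝ) ^ k * (1 / 2 : ℝ) ^ m ≤ ε / 4 * c₀ := by
    have ht := tendsto_pow_const_mul_const_pow_of_abs_lt_one k (r := (1 / 2 : ℝ))
      (by rw [abs_of_pos] <;> norm_num)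
    have := ht.eventually_le_const (by positivity : (0 : ℝ) < ε / 4 * c₀)
    exact Filter.eventually_atTop.1 this
  refine ⟨G, 1 / (A₀ + 2), by positivity, max 1 m₁, 0, ?_⟩
  intro n _ m hm hmn α A _ hα j
  have hm1 : 1 ≤ m := (le_max_left _ _).trans hm
  have hmm : m₁ ≤ m := (le_max_right _ _).trans hm
  have hn : A₀ * m + 2 * m ≤ n := by
    have h1 : (0 : ℝ) < A₀ + 2 := by positivity
    rw [div_mul_eq_mul_div, one_mul, le_div_iff₀ h1] at hmn
    have h2 : (m : ℝ) * (A₀ + 2) ≤ n := hmn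
    have h3 : m * (A₀ + 2) ≤ n := by exact_mod_cast h2
    calc A₀ * m + 2 * m = m * (A₀ + 2) := by ring
      _ ≤ n := h3
  by_cases hadm : ∀ P ∈ PU K m, ∃ r : K[X], ∀ i ∈ A, ¬ P ∣ r + α i
  swap
  · -- the sifted set is empty
    push Not at hadm
    obtain ⟨P, hP, hPr⟩ := hadm
    have he : SfsA K α A n m = ∅ := by
      rw [eq_empty_iff_forall_notMem]
      intro f hf
      rw [SfsA, mem_filter] at hf
      obtain ⟨i, hiA, hi⟩ := hPr f
      rw [mem_PU] at hP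
      have := hf.2 i hiA P hP.1 hP.2.1 hi
      omega
    rw [he]
    simp
  have hlt : ∀ P ∈ PU K m, (OmA α A P).card < Fintype.card K ^ P.natDegree := fun P hP =>
    OmA_lt α A (mem_PU.1 hP).1 (hadm P hP)
  set V : ℝ := ∏ P ∈ PU K m, Z α A P with hV
  -- lower bound for the sifted set
  have hlow : 1 / 2 * V * (Fintype.card K : ℝ) ^ n ≤ (SfsA K α A n m).card := by
    have h1 := (hA n m (PU K m) (OmA α A) 1 (X ^ n) hm1 (by omega) (fun P hP => by
      rw [mem_PU] at hP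
      exact ⟨hP.1, hP.2.1, hP.2.2, isCoprime_one_left⟩) (fun P hP =>
      ⟨OmA_card α A P, hlt P hP, OmA_deg α A (mem_PU.1 hP).1⟩)).1
    rw [← SfsA_card] at h1
    have e : (1 - 1 / 2 : ℝ) = 1 / 2 := by norm_num
    rw [e] at h1
    exact h1
  have hVge : c₀ / (m : ℝ) ^ k ≤ V :=
    prod_ge (K := K) k m hm1 (fun P => (OmA α A P).card) (fun P hP => ⟨OmA_card α A P, hlt P hP⟩)
  have hm0 : (0 : ℝ) < (m : ℝ) ^ k := by
    have : (0 : ℝ) < m := by exact_mod_cast hm1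
    positivity
  have hVp : 0 < V := lt_of_lt_of_le (by positivity) hVge
  have hqn : (0 : ℝ) < (Fintype.card K : ℝ) ^ n := by positivity
  -- the covering
  have hcov : (SfsA K α A n m).filter (fun f => ∃ g : K[X], g.Monic ∧ G < g.natDegree ∧
      g ^ 2 ∣ f + α j) ⊆
      (((Mn K n).filter (fun b => ∃ g : K[X], g.Monic ∧ m < g.natDegree ∧ g ^ 2 ∣ b)).image
        (fun b => b - α j)) ∪
      (Finset.Icc (G + 1) m).biUnion (fun s => (Mn K s).biUnion
        (fun g => (SfsA K α A n m).filter (fun f => g ^ 2 ∣ f + α j))) := by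
    intro f hf
    rw [mem_filter] at hf
    obtain ⟨hf, g, hg, hgG, hd⟩ := hf
    rw [mem_union]
    rcases le_or_gt g.natDegree m with h | h
    · right
      rw [mem_biUnion]
      refine ⟨g.natDegree, mem_Icc.2 ⟨by omega, h⟩, ?_⟩
      rw [mem_biUnion]
      exact ⟨g, mem_Mn.2 ⟨hg, rfl⟩, mem_filter.2 ⟨hf, hd⟩⟩
    · left
      rw [SfsA, mem_filter] at hf
      exact mem_image.2 ⟨f + α j, mem_filter.2 ⟨add_mem_Mn hf.1 (hα j), g, hg, h, hd⟩, by ring⟩
  have hbig : ((((Mn K n).filter (fun b => ∃ g : K[X], g.Monic ∧ m < g.natDegree ∧ g ^ 2 ∣ b)).image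
        (fun b => b - α j)).card : ℝ) ≤ ε / 4 * V * (Fintype.card K : ℝ) ^ n := by
    have h1 := sq_wt (K := K) n m
    have h2 : ((((Mn K n).filter (fun b => ∃ g : K[X], g.Monic ∧ m < g.natDegree ∧
        g ^ 2 ∣ b)).image (fun b => b - α j)).card : ℝ) ≤ (Fintype.card K : ℝ) ^ n * wt K m :=
      le_trans (by exact_mod_cast card_image_le) h1
    refine h2.trans ?_
    have h3 : wt K m ≤ (1 / 2 : ℝ) ^ m := wt_le_half m
    have h4 : wt K m ≤ ε / 4 * V := by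
      have h5 := hm₁ m hmm
      calc wt K m ≤ (1 / 2 : ℝ) ^ m := h3
        _ = ((m : ℝ) ^ k * (1 / 2 : ℝ) ^ m) / (m : ℝ) ^ k := by field_simp
        _ ≤ (ε / 4 * c₀) / (m : ℝ) ^ k := by gcongr
        _ = ε / 4 * (c₀ / (m : ℝ) ^ k) := by ring
        _ ≤ ε / 4 * V := by gcongr
    calc (Fintype.card K : ℝ) ^ n * wt K m ≤ (Fintype.card K : ℝ) ^ n * (ε / 4 * V) := by gcongr
      _ = _ := by ring
  have hmid : (((Finset.Icc (G + 1) m).biUnion (fun s => (Mn K s).biUnion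
        (fun g => (SfsA K α A n m).filter (fun f => g ^ 2 ∣ f + α j)))).card : ℝ) ≤
      ε / 4 * V * (Fintype.card K : ℝ) ^ n := by
    have h1 : (((Finset.Icc (G + 1) m).biUnion (fun s => (Mn K s).biUnion
        (fun g => (SfsA K α A n m).filter (fun f => g ^ 2 ∣ f + α j)))).card : ℝ) ≤
        ∑ s ∈ Finset.Icc (G + 1) m, ∑ g ∈ Mn K s,
          (((SfsA K α A n m).filter (fun f => g ^ 2 ∣ f + α j)).card : ℝ) := by
      have := card_biUnion_le.trans (sum_le_sum fun s (_ : s ∈ Finset.Icc (G + 1) m) =>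
        card_biUnion_le (s := Mn K s)
          (t := fun g => (SfsA K α A n m).filter (fun f => g ^ 2 ∣ f + α j)))
      exact_mod_cast this
    refine h1.trans ?_
    have h2 : ∀ s ∈ Finset.Icc (G + 1) m, ∑ g ∈ Mn K s,
          (((SfsA K α A n m).filter (fun f => g ^ 2 ∣ f + α j)).card : ℝ) ≤
        (3 / 2 * V * CC K k * (Fintype.card K : ℝ) ^ n) * (3 / 4 : ℝ) ^ s := by
      intro s hsm
      rw [mem_Icc] at hsm
      have h3 : ∀ g ∈ Mn K s, (((SfsA K α A n m).filter (fun f => g ^ 2 ∣ f + α j)).card : ℝ) ≤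
          (3 / 2) * (V * (CC K k * (3 / 2 : ℝ) ^ s)) * (Fintype.card K : ℝ) ^ (n - 2 * s) :=
        fun g hg => count_g α A (fun L m Ps Ω M a₀ h1 h2 h3 h4 => (hA L m Ps Ω M a₀ h1 h2 h3 h4).2.1)
          n m hm1 hn hα hlt j s hsm.2 g hg
      refine (sum_le_sum h3).trans ?_
      rw [sum_const, card_Mn, nsmul_eq_mul]
      push_cast
      have h5 : (Fintype.card K : ℝ) ^ n = (Fintype.card K : ℝ) ^ (n - 2 * s) *
          ((Fintype.card K : ℝ) ^ s * (Fintype.card K : ℝ) ^ s) := by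
        rw [← pow_add, ← pow_add]
        congr 1
        omega
      have h6 : (3 / 2 : ℝ) ^ s ≤ (Fintype.card K : ℝ) ^ s * (3 / 4 : ℝ) ^ s := by
        rw [← mul_pow]
        exact pow_le_pow_left₀ (by norm_num) (by linarith) s
      rw [h5]
      have h7 : (0 : ℝ) ≤ 3 / 2 * V * CC K k * (Fintype.card K : ℝ) ^ (n - 2 * s) *
          (Fintype.card K : ℝ) ^ s := by positivity
      calc (Fintype.card K : ℝ) ^ s * (3 / 2 * (V * (CC K k * (3 / 2 : ℝ) ^ s)) *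
            (Fintype.card K : ℝ) ^ (n - 2 * s))
          = (3 / 2 * V * CC K k * (Fintype.card K : ℝ) ^ (n - 2 * s) *
              (Fintype.card K : ℝ) ^ s) * (3 / 2 : ℝ) ^ s := by ring
        _ ≤ (3 / 2 * V * CC K k * (Fintype.card K : ℝ) ^ (n - 2 * s) *
              (Fintype.card K : ℝ) ^ s) * ((Fintype.card K : ℝ) ^ s * (3 / 4 : ℝ) ^ s) :=
            mul_le_mul_of_nonneg_left h6 h7
        _ = _ := by ring
    refine (sum_le_sum h2).trans ?_
    rw [← mul_sum]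
    have h3 := geo34 G m
    have h4 : (0 : ℝ) ≤ 3 / 2 * V * CC K k * (Fintype.card K : ℝ) ^ n := by positivity
    calc (3 / 2 * V * CC K k * (Fintype.card K : ℝ) ^ n) * ∑ s ∈ Finset.Icc (G + 1) m, (3 / 4 : ℝ) ^ s
        ≤ (3 / 2 * V * CC K k * (Fintype.card K : ℝ) ^ n) * (4 * (3 / 4 : ℝ) ^ G) :=
          mul_le_mul_of_nonneg_left h3 h4
      _ = (6 * CC K k * (3 / 4 : ℝ) ^ G) * (V * (Fintype.card K : ℝ) ^ n) := by ring
      _ ≤ ε / 4 * (V * (Fintype.card K : ℝ) ^ n) := by gcongr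
      _ = _ := by ring
  have h1 : (((SfsA K α A n m).filter (fun f => ∃ g : K[X], g.Monic ∧ G < g.natDegree ∧
      g ^ 2 ∣ f + α j)).card : ℝ) ≤ ε / 4 * V * (Fintype.card K : ℝ) ^ n +
        ε / 4 * V * (Fintype.card K : ℝ) ^ n := by
    refine le_trans ?_ (add_le_add hbig hmid)
    have := (card_le_card hcov).trans (card_union_le _ _)
    exact_mod_cast this
  calc _ ≤ ε / 4 * V * (Fintype.card K : ℝ) ^ n + ε / 4 * V * (Fintype.card K : ℝ) ^ n := h1
    _ = ε * (1 / 2 * V * (Fintype.card K : ℝ) ^ n) := by ring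
    _ ≤ _ := by gcongr

end Pool.Agent.H549.Cor6
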